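import Pool.Agent.Helper5_Mobility.Final

/-!
# `MP_7ec8a1_co`: a graph whose mobility exceeds `conn N(H) + 3`

The graph has as vertices the vectors of the symplectic space `(ℤ/5)^120` with the form `ω`, the
sets `s` of at most four vectors such that `ω(a,b) + ω(b,c) + ω(c,a) ∈ {-1,0,1}` for all
`a, b, c ∈ s` (faces), and four additional vertices.  A vector is adjacent to the faces containing
it; the additional vertices are adjacent to each other and to the vector `0`.

* The graph is `5`-mobile: homomorphisms of a graph of maximum degree at most three are, up to
  moves, antisymmetric `ℤ/5`-valued fields with curvature in `{-1,0,1}` on triples, each point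
  being in at most three triples, and each such field can be moved to zero.  It is not `6`-mobile.
* The neighbourhood complex is not `2`-connected: the integral lift of the curvature is a
  2-cocycle, and there is a 2-sphere on which its value is `5`.
-/

set_option autoImplicit false

namespace Pool.Agent.Results.MP_7ec8a1_co.Counterexample

open Pool.Agent.Helper5_Mobility

/-- There is a finite simple graph `H` with at least one edge, with `m(H) = 5` and
`m(H) ≥ conn(N(H)) + 4`. -/
theorem result : ∃ (V : Type) (_ : Fintype V) (H : SimpleGraph V),
    (∃ u v, H.Adj u v) ∧ mobility H = 5 ∧ conn (NComplex H) + 4 ≤ mobility H :=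
  ⟨HV, inferInstance, HG, exists_adj, mobility_eq, disproof⟩

end Pool.Agent.Results.MP_7ec8a1_co.Counterexample
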